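import Pool.Agent.U175.Rel.Digits

/-!
# The digits of the numbers `β e + γ π`, uniformly in the direction `(β, γ)`

If `1, e, π` are linearly dependent over `ℚ` then for exactly one direction `(β, γ)` the numbers
`β e + γ π` are rational, so that their digits satisfy short linear recurrences. Let `N(x; b, L)` be the
linear complexity of the first `L` digits of `x` in base `b`, the least order of a linear recurrence
with rational coefficients satisfied by them. We show that, uniformly in the directions and in the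
bases, at most one direction can be exceptional: for every `ε > 0`, all `δ ≥ 0`, all bases
`b`, all large `L` and any two directions `(β, γ)`, `(β', γ')` which are not proportional, with
entries at most `b^(δL)`,

`N(β e + γ π; b, L) + N(β' e + γ' π; b, L) ≥ (1/2 - 2 δ - ε) L`.

More generally, let `t` be a real number, `n ≥ 0` and `η > 0`. Then there is `C` such that for the
numbers `u_w = β_1 e + ⋯ + β_n e^n + γ t`, `w = (β_1, …, β_n, γ)`, and any two vectors `w`, `w'` which
are not proportional, with entries at most `H`, `H'`, for all bases `b`, `b'` and lengths `L`, `L'`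

`min (L log b, L' log b') ≤
  (n + 1 + η) ((N(u_w; b, L) + C) log b + (N(u_w'; b', L') + C) log b' + log H + log H')`.

Proof. A short recurrence gives a rational approximation with a small denominator (starting library,
`Pool.Agent.N743.Dg.approx`), so that there are two relations between `1, e, …, e^n, t` up to a
small error. Eliminate `t` and use the measure of transcendence of `e` with the optimal exponent
(starting library, `Pool.Agent.W472.AC.e_measP`).
-/

set_option autoImplicit false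

namespace Pool.Agent.Results.MP_58e087_nt.DigitsInAllDirections

/-- `v` and `w` are proportional -/
def Proportional {k : ℕ} (v w : Fin k → ℤ) : Prop := ∃ a b : ℤ, a ≠ 0 ∧ b ≠ 0 ∧ a • v = b • w

/-- the number `β_1 e + ⋯ + β_n e^n + γ t`, where `w = (β_1, …, β_n, γ)` -/
noncomputable def num (n : ℕ) (t : ℝ) (w : Fin (n + 1) → ℤ) : ℝ :=
  (∑ i : Fin n, (w i.castSucc : ℝ) * Real.exp 1 ^ ((i : ℕ) + 1)) + w (Fin.last n) * t

/-- the `i`-th digit of `x` after the point in base `b` -/
noncomputable def digit (b : ℕ) (x : ℝ) (i : ℕ) : ℤ := ⌊x * (b : ℝ) ^ i⌋ % (b : ℤ)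

/-- The terms `s_1, …, s_L` satisfy the linear recurrence
`s_(i+m) = c_0 s_i + … + c_(m-1) s_(i+m-1)` for `1 ≤ i ≤ L - m`. -/
def Recurrence (s : ℕ → ℤ) (c : ℕ → ℚ) (L m : ℕ) : Prop :=
  ∀ i : ℕ, 1 ≤ i → i + m ≤ L →
    (s (i + m) : ℚ) = ∑ j ∈ Finset.range m, c j * (s (i + j) : ℚ)

/-- the linear complexity of the first `L` digits of `x` in base `b` -/
noncomputable def complexity (b : ℕ) (x : ℝ) (L : ℕ) : ℕ :=
  sInf {m | ∃ c : ℕ → ℚ, Recurrence (digit b x) c L m}

theorem part1 (n : ℕ) (t η : ℝ) (hη : 0 < η) : ∃ C : ℝ, 0 < C ∧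
    ∀ w w' : Fin (n + 1) → ℤ, w ≠ 0 → w' ≠ 0 → ¬ Proportional w w' →
      ∀ H H' : ℝ, 1 ≤ H → 1 ≤ H' → (∀ i, |(w i : ℝ)| ≤ H) → (∀ i, |(w' i : ℝ)| ≤ H') →
      ∀ b b' : ℕ, 2 ≤ b → 2 ≤ b' → ∀ L L' : ℕ,
        min (L * Real.log b) (L' * Real.log b') ≤
          (n + 1 + η) * ((complexity b (num n t w) L + C) * Real.log b +
            (complexity b' (num n t w') L' + C) * Real.log b' + Real.log H + Real.log H') :=
  Pool.Agent.U175.Rel.digits n t η hη

lemma num_one (t : ℝ) (x y : ℤ) : num 1 t ![x, y] = x * Real.exp 1 + y * t := by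
  unfold num
  simp

/-- **The digits in all directions.**

(1) For all `n`, all real `t` and all `η > 0` there is `C > 0` such that for any two vectors
`w, w' ∈ ℤ^(n+1)`, not `0` and not proportional, with entries at most `H` and `H'`, for all bases
`b, b'` and all lengths `L, L'` the lower bound of the introduction holds for the linear complexities
of the digits of `num n t w` and `num n t w'`.

(2) For all `δ ≥ 0`, `ε > 0` there is `L₀` such that for all bases `b ≥ 2`, all `L ≥ L₀` and all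
integers `β, γ, β', γ'` with `β γ' ≠ β' γ`, at most `b ^ (δ L)` in absolute value:
`(1/2 - 2 δ - ε) L ≤ N(β e + γ π; b, L) + N(β' e + γ' π; b, L)`. -/
theorem result :
    (∀ (n : ℕ) (t η : ℝ), 0 < η → ∃ C : ℝ, 0 < C ∧
      ∀ w w' : Fin (n + 1) → ℤ, w ≠ 0 → w' ≠ 0 → ¬ Proportional w w' →
        ∀ H H' : ℝ, 1 ≤ H → 1 ≤ H' → (∀ i, |(w i : ℝ)| ≤ H) → (∀ i, |(w' i : ℝ)| ≤ H') →
        ∀ b b' : ℕ, 2 ≤ b → 2 ≤ b' → ∀ L L' : ℕ,
          min (L * Real.log b) (L' * Real.log b') ≤
            (n + 1 + η) * ((complexity b (num n t w) L + C) * Real.log b +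
              (complexity b' (num n t w') L' + C) * Real.log b' + Real.log H + Real.log H')) ∧
    (∀ δ ε : ℝ, 0 ≤ δ → 0 < ε → ∃ L₀ : ℕ, ∀ b : ℕ, 2 ≤ b → ∀ L : ℕ, L₀ ≤ L →
      ∀ β γ β' γ' : ℤ, β * γ' ≠ β' * γ → |(β : ℝ)| ≤ (b : ℝ) ^ (δ * L) →
        |(γ : ℝ)| ≤ (b : ℝ) ^ (δ * L) → |(β' : ℝ)| ≤ (b : ℝ) ^ (δ * L) →
        |(γ' : ℝ)| ≤ (b : ℝ) ^ (δ * L) →
        (1 / 2 - 2 * δ - ε) * L ≤ complexity b (β * Real.exp 1 + γ * Real.pi) L +
          complexity b (β' * Real.exp 1 + γ' * Real.pi) L) := by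
  refine ⟨fun n t η hη => part1 n t η hη, fun δ ε hδ hε => ?_⟩
  obtain ⟨C, hC, h⟩ := part1 1 Real.pi (2 * ε) (by positivity)
  refine ⟨⌈4 * C / ε⌉₊, fun b hb L hL β γ β' γ' hne h1 h2 h3 h4 => ?_⟩
  have hL' : 4 * C / ε ≤ L := (Nat.le_ceil _).trans (by exact_mod_cast hL)
  have hbR : (1 : ℝ) < b := by exact_mod_cast (by omega : 1 < b)
  have hlb : 0 < Real.log b := Real.log_pos hbR
  have hH : 1 ≤ (b : ℝ) ^ (δ * L) := Real.one_le_rpow hbR.le (by positivity)
  have hw : (![β, γ] : Fin 2 → ℤ) ≠ 0 := by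
    intro h0
    have e0 := congrFun h0 0
    have e1 := congrFun h0 1
    simp at e0 e1
    apply hne
    rw [e0, e1]; ring
  have hw' : (![β', γ'] : Fin 2 → ℤ) ≠ 0 := by
    intro h0
    have e0 := congrFun h0 0
    have e1 := congrFun h0 1
    simp at e0 e1
    apply hne
    rw [e0, e1]; ring
  have hnp : ¬ Proportional (![β, γ] : Fin 2 → ℤ) ![β', γ'] := by
    rintro ⟨r, s, hr, hs, hrs⟩
    have e0 := congrFun hrs 0
    have e1 := congrFun hrs 1
    simp at e0 e1
    apply hne
    have e2 : r * (β * γ' - β' * γ) = 0 := by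
      calc r * (β * γ' - β' * γ) = (r * β) * γ' - β' * (r * γ) := by ring
        _ = 0 := by rw [e0, e1]; ring
    rcases mul_eq_zero.1 e2 with h5 | h5
    · exact absurd h5 hr
    · linarith
  have hm := h ![β, γ] ![β', γ'] hw hw' hnp ((b : ℝ) ^ (δ * L)) ((b : ℝ) ^ (δ * L)) hH hH
    (fun i => by
      fin_cases i
      · exact h1
      · exact h2)
    (fun i => by
      fin_cases i
      · exact h3
      · exact h4) b b hb hb L L
  rw [min_self, num_one, num_one, Real.log_rpow (by linarith)] at hm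
  obtain ⟨N, hN⟩ : ∃ N, N = complexity b (β * Real.exp 1 + γ * Real.pi) L := ⟨_, rfl⟩
  obtain ⟨N', hN'⟩ : ∃ N, N = complexity b (β' * Real.exp 1 + γ' * Real.pi) L := ⟨_, rfl⟩
  rw [← hN, ← hN'] at hm ⊢
  have hm1 : (L : ℝ) ≤ (2 + 2 * ε) * (N + N' + 2 * C + 2 * (δ * L)) := by
    have h5 : (L : ℝ) * Real.log b ≤
        ((2 + 2 * ε) * (N + N' + 2 * C + 2 * (δ * L))) * Real.log b := by
      refine hm.trans (le_of_eq ?_)
      push_cast
      ring
    exact le_of_mul_le_mul_right h5 hlb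
  have hL0 : (0 : ℝ) ≤ L := Nat.cast_nonneg L
  have h6 : 4 * C ≤ ε * L := by
    rw [div_le_iff₀ hε] at hL'
    linarith
  -- `L / (2 + 2 ε) ≥ (1/2 - ε/2) L`
  have h7 : (1 / 2 - ε / 2) * L ≤ N + N' + 2 * C + 2 * (δ * L) := by
    by_contra hcon
    push Not at hcon
    have h8 : (2 + 2 * ε) * (N + N' + 2 * C + 2 * (δ * L)) < (2 + 2 * ε) * ((1 / 2 - ε / 2) * L) :=
      mul_lt_mul_of_pos_left hcon (by linarith)
    nlinarith [sq_nonneg ε]
  nlinarith

end Pool.Agent.Results.MP_58e087_nt.DigitsInAllDirections
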