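import Pool.Agent.U831.JE.Final

/-!
# Equidistribution of `n (b e + c π)` in all directions `(b, c)` but one line, at every scale

For integers `b, c` and a real number `t` (for instance `t = π`) consider the sequence
`n (b e + c t)`, `n < N`, modulo one. Let `D_N(b, c)` be its discrepancy, uniformly in all shifts.
The numbers `1, e, π` are linearly independent over `ℚ` if and only if `D_N(b, c) → 0` for all
directions `(b, c) ≠ (0, 0)` (`t = π`).

It is shown that there is an absolute constant (200) such that for every real `t` and every `N ≥ 2`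
the directions with `D_N(b, c) > 200 max(|b|, |c|) (log N / N)^(1/3)` all lie on one line through the
origin. In particular, for every `N` at least one of the sequences `n (π + e)`, `n (π - e)`, `n < N`,
is equidistributed with the rate `200 (log N / N)^(1/3)`; and if there is a relation
`a₀ + b₀ e + c₀ t = 0` then the exceptional line is the line of `(b₀, c₀)` at all large scales.

Proof. Counting in blocks of two lengths, a bad direction yields an approximation `p / q` of
`α = b e + c t` with `q max(1, N |q α - p|)` small. For two directions which are not proportional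
`t` is eliminated; this gives an approximation of `e` which contradicts the sharp irrationality
measure of `e` (starting library, `Pool.Agent.H43R2.Cplx.EMeas.lower`).
-/

set_option autoImplicit false

namespace Pool.Agent.Results.MP_58e087_nt.DiscrepancyInAllDirections

/-- The number of `n < N` with the fractional part of `n α + γ` in `[u, v)`. -/
noncomputable def count (α γ u v : ℝ) (N : ℕ) : ℕ :=
  ((Finset.range N).filter fun n : ℕ =>
    u ≤ Int.fract (n * α + γ) ∧ Int.fract (n * α + γ) < v).card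

/-- The sequence `n α + γ` (`n < N`) modulo one has discrepancy at most `D`, for every shift `γ`. -/
def DiscrepancyLe (α : ℝ) (N : ℕ) (D : ℝ) : Prop :=
  ∀ γ u v : ℝ, 0 ≤ u → u ≤ v → v ≤ 1 → |(count α γ u v N : ℝ) - (v - u) * N| ≤ D * N

/-- The bound `200 max(|b|, |c|) (log N / N)^(1/3)`. -/
noncomputable def bound (b c : ℤ) (N : ℕ) : ℝ :=
  200 * (max |b| |c| : ℤ) * (Real.log N / N) ^ ((1 : ℝ) / 3)

theorem result :
    -- at every scale all directions outside one line are equidistributed
    (∀ (t : ℝ) (N : ℕ), 2 ≤ N → ∃ b₀ c₀ : ℤ, (b₀ ≠ 0 ∨ c₀ ≠ 0) ∧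
      ∀ b c : ℤ, b * c₀ - b₀ * c ≠ 0 →
        DiscrepancyLe (b * Real.exp 1 + c * t) N (bound b c N)) ∧
    -- the same for two given directions
    (∀ (t : ℝ) (N : ℕ), 2 ≤ N → ∀ b c b' c' : ℤ, b * c' - b' * c ≠ 0 →
      DiscrepancyLe (b * Real.exp 1 + c * t) N (bound b c N) ∨
        DiscrepancyLe (b' * Real.exp 1 + c' * t) N (bound b' c' N)) ∧
    -- a relation is the only exception at all large scales
    (∀ (t : ℝ) (a₀ b₀ c₀ : ℤ), (a₀ : ℝ) + b₀ * Real.exp 1 + c₀ * t = 0 →
      ∃ N₀ : ℕ, ∀ N : ℕ, N₀ ≤ N → ∀ b c : ℤ, b * c₀ - b₀ * c ≠ 0 →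
        DiscrepancyLe (b * Real.exp 1 + c * t) N (bound b c N)) ∧
    -- the sums `π + e` and `π - e`
    (∀ N : ℕ, 2 ≤ N →
      DiscrepancyLe (Real.pi + Real.exp 1) N (200 * (Real.log N / N) ^ ((1 : ℝ) / 3)) ∨
        DiscrepancyLe (Real.pi - Real.exp 1) N (200 * (Real.log N / N) ^ ((1 : ℝ) / 3))) := by
  refine ⟨fun t N hN => Pool.Agent.U831.JE.one_line t N hN,
    fun t N hN b c b' c' h => Pool.Agent.U831.JE.two_dirs t N hN b c b' c' h,
    fun t a₀ b₀ c₀ h => Pool.Agent.U831.JE.of_relation t a₀ b₀ c₀ h, fun N hN => ?_⟩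
  have h := Pool.Agent.U831.JE.two_dirs Real.pi N hN 1 1 (-1) 1 (by norm_num)
  have e1 : Pool.Agent.U831.JE.ht 1 1 = 1 := by simp [Pool.Agent.U831.JE.ht]
  have e2 : Pool.Agent.U831.JE.ht (-1) 1 = 1 := by simp [Pool.Agent.U831.JE.ht]
  rw [e1, e2] at h
  have e3 : ((1 : ℤ) : ℝ) * Real.exp 1 + ((1 : ℤ) : ℝ) * Real.pi = Real.pi + Real.exp 1 := by
    push_cast; ring
  have e4 : ((-1 : ℤ) : ℝ) * Real.exp 1 + ((1 : ℤ) : ℝ) * Real.pi = Real.pi - Real.exp 1 := by
    push_cast; ring
  have e5 : 200 * ((1 : ℤ) : ℝ) * Pool.Agent.U831.JE.rate N =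
      200 * (Real.log N / N) ^ ((1 : ℝ) / 3) := by
    unfold Pool.Agent.U831.JE.rate; push_cast; ring
  rw [e3, e4, e5] at h
  exact h

end Pool.Agent.Results.MP_58e087_nt.DiscrepancyInAllDirections
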