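import Pool.Agent.U455.JD

/-!
# `1, e, π`: the digits of the numbers `a e + b π` in all directions but one

A linear relation between `1, e, π` over `ℚ` is the same as a direction `(a : b)` for which `a e + b π` is rational,
and there is at most one such direction; the digits of a rational number are periodic.

Let `t` be ANY real number (in the place of `π`). A sequence of digits `d_1, …, d_N` is cut at a set `E` of
places into pieces of linear complexity at most `m` if on every stretch without a place in `E` the digits satisfy a linear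
recurrence of order `m` over `ℚ`, each stretch one of its own. An automaton with `m` states which predicts each next digit
from its state cuts the digits at its errors into such pieces.

(1) For every `η > 0` there is `C` such that for all real `t`, all pairs of non-proportional integer directions
`(a, b)`, `(c, d)` with entries at most `H` and all bases `β`: if the first `N` digits of `a e + b t` are cut
at the places in `E` into pieces of linear complexity at most `m` and those of `c e + d t` at the places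
in `F` into pieces of linear complexity at most `n`, then

`N ≤ ((2+η) + ⋯ + (2+η)^(|E|+|F|+1)) (m + n + C √((m+n+1) log (m+n+2)) + (12+6η) log H)`.

(2) If `θ + 2 c log 2 < 1` there is `N₀` such that for all real `t`, all bases and all `N ≥ N₀` the following holds for
all directions with entries at most `exp (N^θ)`, with the exception of at most ONE direction: the first `N`
digits of `a e + b t` are not cut at `c log N` or fewer places into pieces of linear complexity at most `N^θ`.

(3) In particular every automaton with at most `N^θ` states makes more than `c log N` errors on them.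

The proof uses the measure of transcendence of `e` (starting library) and an estimate for cut digits with
explicit constants (`Pool.Agent.U455.JX`, after `Pool.Agent.R473.FP`).
-/

set_option autoImplicit false

namespace Pool.Agent.Results.MP_58e087_nt.FewPiecesInAllDirections

open Finset

/-- the `i`-th digit of `x` after the point in base `b` -/
noncomputable def digit (b : ℕ) (x : ℝ) (i : ℕ) : ℤ := ⌊x * (b : ℝ) ^ i⌋ % (b : ℤ)

/-- the state of the automaton with transitions `δ` and initial state `q₀` after it has read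
`d 1, …, d n` -/
def run {Q : ℕ} (δ : Fin Q → ℤ → Fin Q) (q₀ : Fin Q) (d : ℕ → ℤ) : ℕ → Fin Q
  | 0 => q₀
  | n + 1 => δ (run δ q₀ d n) (d (n + 1))

/-- the number of errors of the automaton on `d 1, …, d N`: the number of `n < N` such that the
prediction `out` of the state after `d 1, …, d n` is not `d (n + 1)` -/
def errors {Q : ℕ} (δ : Fin Q → ℤ → Fin Q) (q₀ : Fin Q) (out : Fin Q → ℤ) (d : ℕ → ℤ) (N : ℕ) : ℕ :=
  ((range N).filter fun n => out (run δ q₀ d n) ≠ d (n + 1)).card

/-- Every stretch `u+1, …, v` of the first `N` places which contains no place `i + 1` with `i ∈ E` is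
such that the digits of `x` at these places satisfy a linear recurrence of order `m` over `ℚ` (which
may depend on the stretch). So the first `N` digits are cut at the places in `E` into pieces of linear
complexity at most `m`. -/
def Cut (b : ℕ) (x : ℝ) (N m : ℕ) (E : Finset ℕ) : Prop :=
  ∀ u v, u ≤ v → v ≤ N → (∀ i ∈ E, i < u ∨ v ≤ i) → ∃ c : ℕ → ℚ, ∀ i, u ≤ i → i + m < v →
    (digit b x (i + m + 1) : ℚ) = ∑ l ∈ range m, c l * (digit b x (i + l + 1) : ℚ)

/-- The first `N` digits of `x` in base `b` are not cut at `c log N` or fewer places into pieces which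
satisfy linear recurrences of order at most `N ^ θ`. -/
def Rough (θ c : ℝ) (b N : ℕ) (x : ℝ) : Prop :=
  ∀ (m : ℕ) (E : Finset ℕ), (m : ℝ) ≤ (N : ℝ) ^ θ → (E.card : ℝ) ≤ c * Real.log N → ¬ Cut b x N m E

theorem run_eq {Q : ℕ} (δ : Fin Q → ℤ → Fin Q) (q₀ : Fin Q) (d : ℕ → ℤ) (n : ℕ) :
    run δ q₀ d n = Pool.Agent.R473.FP.run δ q₀ d n := by
  induction n with
  | zero => rfl
  | succ n ih =>
    change δ (run δ q₀ d n) (d (n + 1)) = δ (Pool.Agent.R473.FP.run δ q₀ d n) (d (n + 1))
    rw [ih]

theorem errors_eq {Q : ℕ} (δ : Fin Q → ℤ → Fin Q) (q₀ : Fin Q) (out : Fin Q → ℤ) (d : ℕ → ℤ)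
    (N : ℕ) : errors δ q₀ out d N = Pool.Agent.R473.FP.errors δ q₀ out d N := by
  unfold errors Pool.Agent.R473.FP.errors
  simp only [run_eq]

theorem cut_fs (b : ℕ) (x : ℝ) {Q : ℕ} (δ : Fin Q → ℤ → Fin Q) (q₀ : Fin Q) (out : Fin Q → ℤ)
    (N : ℕ) : ∃ E : Finset ℕ, E.card = errors δ q₀ out (digit b x) N ∧ Cut b x N Q E := by
  refine ⟨_, ?_, Pool.Agent.U455.JM.cut_of_fs b x δ q₀ out N⟩
  rw [errors_eq]
  rfl

/-- **The digits of `a e + b t` in all directions but one**; see the header. -/
theorem result :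
    (∀ η : ℝ, 0 < η → ∃ C : ℝ, 0 < C ∧ ∀ (t H : ℝ), 1 ≤ H → ∀ (a b c d : ℤ),
      a * d - b * c ≠ 0 → |(a : ℝ)| ≤ H → |(b : ℝ)| ≤ H → |(c : ℝ)| ≤ H → |(d : ℝ)| ≤ H →
      ∀ β : ℕ, 2 ≤ β → ∀ (N m n : ℕ) (E F : Finset ℕ), Cut β (a * Real.exp 1 + b * t) N m E →
        Cut β (c * Real.exp 1 + d * t) N n F →
        (N : ℝ) ≤ (∑ i ∈ range (E.card + F.card + 1), (2 + η) ^ (i + 1)) *
          ((m : ℝ) + n + C * Real.sqrt (((m : ℝ) + n + 1) * Real.log ((m : ℝ) + n + 2)) +
            (12 + 6 * η) * Real.log H)) ∧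
    (∀ θ c : ℝ, 0 ≤ θ → 0 ≤ c → θ + 2 * c * Real.log 2 < 1 → ∃ N₀ : ℕ, ∀ t : ℝ, ∀ β : ℕ, 2 ≤ β →
      ∀ N : ℕ, N₀ ≤ N → ∀ a b a' b' : ℤ, |(a : ℝ)| ≤ Real.exp ((N : ℝ) ^ θ) →
        |(b : ℝ)| ≤ Real.exp ((N : ℝ) ^ θ) → |(a' : ℝ)| ≤ Real.exp ((N : ℝ) ^ θ) →
        |(b' : ℝ)| ≤ Real.exp ((N : ℝ) ^ θ) → a * b' - b * a' ≠ 0 →
        Rough θ c β N (a * Real.exp 1 + b * t) ∨ Rough θ c β N (a' * Real.exp 1 + b' * t)) ∧
    (∀ (θ c : ℝ) (β N : ℕ) (x : ℝ), Rough θ c β N x → ∀ (Q : ℕ) (δ : Fin Q → ℤ → Fin Q)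
      (q₀ : Fin Q) (out : Fin Q → ℤ), (Q : ℝ) ≤ (N : ℝ) ^ θ →
      c * Real.log N < errors δ q₀ out (digit β x) N) := by
  refine ⟨?_, ?_, ?_⟩
  · intro η hη
    obtain ⟨C, hC, H1⟩ := Pool.Agent.U455.JD.dirs η hη
    refine ⟨C, hC, fun t H hH a b c d h ha hb hc hd β hβ N m n E F hE hF => ?_⟩
    have h1 := H1 t H hH a b c d h ha hb hc hd β hβ N m n E F hE hF
    unfold Pool.Agent.W47.JL.err at h1
    push_cast at h1
    exact h1
  · intro θ c hθ hc hlt
    obtain ⟨η, hη0, hη1, hη⟩ : ∃ η : ℝ, 0 < η ∧ η < 1 ∧ (2 * c) * Real.log (2 + η) + θ < 1 := by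
      have hcont : Filter.Tendsto (fun η : ℝ => (2 * c) * Real.log (2 + η) + θ)
          (nhdsWithin 0 (Set.Ioi 0)) (nhds ((2 * c) * Real.log (2 + 0) + θ)) := by
        refine tendsto_nhdsWithin_of_tendsto_nhds ?_
        refine ContinuousAt.tendsto (f := fun η : ℝ => (2 * c) * Real.log (2 + η) + θ) ?_
        refine ContinuousAt.add (ContinuousAt.mul continuousAt_const
          (ContinuousAt.log (by fun_prop) (by norm_num))) continuousAt_const
      have hlt' : (2 * c) * Real.log (2 + 0) + θ < 1 := by rw [add_zero]; linarith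
      have h1 := ((hcont.eventually_lt_const hlt').and self_mem_nhdsWithin).and
        (mem_nhdsWithin_of_mem_nhds (Iio_mem_nhds (show (0 : ℝ) < 1 by norm_num)))
      obtain ⟨η, ⟨h2, h3⟩, h4⟩ := h1.exists
      exact ⟨η, h3, h4, h2⟩
    obtain ⟨C, hC, H1⟩ := Pool.Agent.U455.JD.dirs η hη0
    obtain ⟨N₀, hN₀, H2⟩ := Pool.Agent.U455.JX.large (2 + η) θ (2 * c) (2 + 3 * C + 18) (by linarith)
      (by positivity) (by positivity) hη
    refine ⟨N₀, fun t β hβ N hN a b a' b' ha hb ha' hb' hne => ?_⟩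
    by_contra hcon
    push Not at hcon
    obtain ⟨hc1, hc2⟩ := hcon
    unfold Rough at hc1 hc2
    push Not at hc1 hc2
    obtain ⟨m, E, hm, hE, hcut⟩ := hc1
    obtain ⟨n, F, hn, hF, hcut'⟩ := hc2
    have hN1 : 1 ≤ N := by omega
    have hNR : (1 : ℝ) ≤ N := by exact_mod_cast hN1
    have hNθ : (1 : ℝ) ≤ (N : ℝ) ^ θ := Real.one_le_rpow hNR hθ
    have hH : 1 ≤ Real.exp ((N : ℝ) ^ θ) := Real.one_le_exp (by linarith)
    have h1 := H1 t _ hH a b a' b' hne ha hb ha' hb' β hβ N m n E F hcut hcut'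
    refine H2 N hN (E.card + F.card) (by push_cast; linarith) (h1.trans ?_)
    refine mul_le_mul_of_nonneg_left ?_ (Finset.sum_nonneg fun i _ => by positivity)
    have h2 := Pool.Agent.N553.PC.err_le (m + n)
    rw [Real.log_exp]
    push_cast at h2 ⊢
    have h3 : C * Pool.Agent.W47.JL.err (m + n) ≤ C * (3 * (N : ℝ) ^ θ) :=
      mul_le_mul_of_nonneg_left (by linarith) hC.le
    have h4 : (12 + 6 * η) * (N : ℝ) ^ θ ≤ 18 * (N : ℝ) ^ θ :=
      mul_le_mul_of_nonneg_right (by linarith) (by linarith)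
    nlinarith
  · intro θ c β N x hR Q δ q₀ out hQ
    by_contra hcon
    push Not at hcon
    obtain ⟨E, hE, hcut⟩ := cut_fs β x δ q₀ out N
    exact hR Q E hQ (by rw [hE]; exact hcon) hcut

end Pool.Agent.Results.MP_58e087_nt.FewPiecesInAllDirections
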