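import Mathlib
import Pool.Agent.H340R2.LW
import Pool.Agent.U945.RD.Rank
import Pool.Agent.W254.HP.Prod

/-!
# Linear independence of `1`, monomials in exponentials, and logarithms

Let `x_1, …, x_r` be algebraic numbers which are linearly independent over `ℚ`, and let `v ≠ 0` be a complex
number. For `k` in `{0, …, n - 1} ^ r` we consider the number `z_k = v e ^ (k_1 x_1 + ⋯ + k_r x_r)`. For
`r = 1`, `x_1 = 1`, `v = 1` and `k = 1` this is `e`.

(1) For all `k` but at most `(q + 3) ^ r + q ^ r` of them, `q = [√n]`, the number `z_k` is independent of all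
logarithms: for ALL logarithms `l_1, …, l_m` of algebraic numbers which are linearly independent over `ℚ`,
for instance for `l_1 = i π`, the numbers `1, z_k, l_1, …, l_m` are linearly independent over the field of
algebraic numbers.

(2) The values `v P(e ^ x_1, …, e ^ x_r)` of all polynomials `P` with algebraic coefficients, of degree `< n`
in each variable, form a space of dimension `n ^ r`. Those values which are of the form
`b_0 + b_1 log a_1 + ⋯ + b_m log a_m` with algebraic `a_i`, `b_i` (`LogForms`) form a subspace of dimension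
at most `(q + 3) ^ r + q ^ r`. The linear independence of `1`, `e`, `π` is part of the conjecture that for
`v = 1` this dimension is `1`.

Ingredients: the hyperplane case of the linear subgroup theorem of Waldschmidt and Roy, and the theorems of
Lindemann and Weierstrass and of Baker, all from the starting library.
-/

set_option autoImplicit false

namespace Pool.Agent.Results.MP_58e087_nt.MonomialsInExponentials

open Module
open scoped Pointwise
open Pool.Agent.H301R2.SSE (QB mem_QB Lt Lt_alg Lt_mul Lt_log)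

/-- The linear combinations, with algebraic coefficients, of `1` and of logarithms of algebraic
numbers. -/
noncomputable def LogForms : Submodule (algebraicClosure ℚ ℂ) ℂ :=
  Submodule.span (algebraicClosure ℚ ℂ) ({1} ∪ {z : ℂ | IsAlgebraic ℚ (Complex.exp z)})

/-- The sums `∑ β_s v e ^ s` over `s` in `S`, with algebraic `β_s`. -/
noncomputable def ExpSums (v : ℂ) (S : Finset ℂ) : Submodule (algebraicClosure ℚ ℂ) ℂ :=
  Submodule.span (algebraicClosure ℚ ℂ) {z | ∃ s ∈ S, z = v * Complex.exp s}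

/-- The numbers `k_1 x_1 + ⋯ + k_r x_r` with `0 ≤ k_i < n`. -/
noncomputable def Box {r : ℕ} (x : Fin r → ℂ) (n : ℕ) : Finset ℂ :=
  open Classical in Finset.univ.image fun k : Fin r → Fin n => ∑ i, ((k i : ℕ) : ℂ) * x i

/-- `1`, `z` and any logarithms of algebraic numbers which are linearly independent over `ℚ` are
linearly independent over the field of algebraic numbers. -/
def Independent (z : ℂ) : Prop :=
  ∀ (m : ℕ) (l : Fin m → ℂ), (∀ i, IsAlgebraic ℚ (Complex.exp (l i))) → LinearIndependent ℚ l →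
    LinearIndependent (algebraicClosure ℚ ℂ) (Fin.cons 1 (Fin.cons z l) : Fin (m + 2) → ℂ)

theorem li {v : ℂ} (hv : v ≠ 0) {S : Finset ℂ} (hS : ∀ s ∈ S, IsAlgebraic ℚ s) :
    LinearIndependent QB (fun s : S => v * Complex.exp (s : ℂ)) := by
  rw [Fintype.linearIndependent_iff]
  intro g hg i
  have h1 : ∑ s : S, (g s : ℂ) * Complex.exp (s : ℂ) = 0 := by
    have h2 : v * ∑ s : S, (g s : ℂ) * Complex.exp (s : ℂ) = 0 := by
      rw [← hg, Finset.mul_sum]
      refine Finset.sum_congr rfl fun s _ => ?_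
      rw [Algebra.smul_def]
      change v * ((g s : ℂ) * _) = (g s : ℂ) * _
      ring
    exact (mul_eq_zero.1 h2).resolve_left hv
  have h3 := Pool.Agent.H340R2.LW.lindemann_weierstrass (Finset.univ : Finset S)
    (fun s => (s : ℂ)) (fun s => (g s : ℂ)) (fun s _ => hS s s.2) (fun s _ => mem_QB.1 (g s).2)
    (fun a _ b _ h => Subtype.ext h) h1 i (Finset.mem_univ i)
  exact Subtype.ext h3

theorem expSums_eq (v : ℂ) (S : Finset ℂ) :
    ExpSums v S = Submodule.span QB (Set.range (fun s : S => v * Complex.exp (s : ℂ))) := by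
  unfold ExpSums
  congr 1
  ext z
  constructor
  · rintro ⟨s, hs, rfl⟩
    exact ⟨⟨s, hs⟩, rfl⟩
  · rintro ⟨s, rfl⟩
    exact ⟨s, s.2, rfl⟩

instance expSums_fin (v : ℂ) (S : Finset ℂ) : FiniteDimensional QB (ExpSums v S) := by
  rw [expSums_eq]
  exact FiniteDimensional.span_of_finite QB (Set.finite_range _)

theorem expSums_rank {v : ℂ} (hv : v ≠ 0) {S : Finset ℂ} (hS : ∀ s ∈ S, IsAlgebraic ℚ s) :
    finrank QB (ExpSums v S) = S.card := by
  rw [expSums_eq, finrank_span_eq_card (li hv hS), Fintype.card_coe]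

theorem add_alg {S T : Finset ℂ} (hS : ∀ s ∈ S, IsAlgebraic ℚ s) (hT : ∀ s ∈ T, IsAlgebraic ℚ s) :
    ∀ s ∈ S + T, IsAlgebraic ℚ s := by
  intro s hs
  obtain ⟨a, ha, b, hb, rfl⟩ := Finset.mem_add.1 hs
  exact (hS a ha).add (hT b hb)

theorem main {v : ℂ} (hv : v ≠ 0) {S T : Finset ℂ} (hS : ∀ s ∈ S, IsAlgebraic ℚ s)
    (hT : ∀ s ∈ T, IsAlgebraic ℚ s) :
    T.card * finrank QB (ExpSums v S ⊓ LogForms : Submodule QB ℂ) ≤
      (S + T).card + T.card * (T.card - 1) := by
  have hfd : FiniteDimensional QB (ExpSums v S ⊓ LogForms : Submodule QB ℂ) :=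
    Submodule.finiteDimensional_inf_left _ _
  have h := Pool.Agent.W254.HP.product_le (ExpSums 1 T) (ExpSums v S ⊓ LogForms)
    (ExpSums v (S + T)) inf_le_right (fun x hx w hw => by
      have h1 : x * w ∈ ExpSums 1 T * ExpSums v S := Submodule.mul_mem_mul hx hw.1
      unfold ExpSums at h1
      rw [Submodule.span_mul_span] at h1
      refine Submodule.span_mono ?_ h1
      rintro _ ⟨_, ⟨t, ht, rfl⟩, _, ⟨s, hs, rfl⟩, rfl⟩
      refine ⟨s + t, Finset.add_mem_add hs ht, ?_⟩
      dsimp only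
      rw [Complex.exp_add]
      ring)
  rwa [expSums_rank one_ne_zero hT, expSums_rank hv (add_alg hS hT)] at h

open Classical in
theorem number {v : ℂ} (hv : v ≠ 0) {S : Finset ℂ} (hS : ∀ s ∈ S, IsAlgebraic ℚ s) :
    (S.filter fun s => v * Complex.exp s ∈ LogForms).card ≤
      finrank QB (ExpSums v S ⊓ LogForms : Submodule QB ℂ) := by
  have hfd : FiniteDimensional QB (ExpSums v S ⊓ LogForms : Submodule QB ℂ) :=
    Submodule.finiteDimensional_inf_left _ _
  rw [← expSums_rank hv (S := S.filter fun s => v * Complex.exp s ∈ LogForms)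
    (fun s hs => hS s (Finset.mem_filter.1 hs).1)]
  refine Submodule.finrank_mono ?_
  unfold ExpSums
  rw [Submodule.span_le]
  rintro _ ⟨s, hs, rfl⟩
  exact ⟨Submodule.subset_span ⟨s, (Finset.mem_filter.1 hs).1, rfl⟩, (Finset.mem_filter.1 hs).2⟩

theorem box_alg {r : ℕ} {x : Fin r → ℂ} (hx : ∀ i, IsAlgebraic ℚ (x i)) (n : ℕ) :
    ∀ s ∈ Box x n, IsAlgebraic ℚ s := by
  intro s hs
  obtain ⟨k, -, rfl⟩ := Finset.mem_image.1 hs
  exact mem_QB.1 (sum_mem fun i _ => mem_QB.2 ((isAlgebraic_natCast _).mul (hx i)))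

theorem box_inj {r : ℕ} {x : Fin r → ℂ} (hli : LinearIndependent ℚ x) (n : ℕ) :
    Function.Injective fun k : Fin r → Fin n => ∑ i, ((k i : ℕ) : ℂ) * x i := by
  intro a b h
  dsimp only at h
  rw [Fintype.linearIndependent_iff] at hli
  have h1 := hli (fun i => ((a i : ℕ) : ℚ) - ((b i : ℕ) : ℚ)) (by
    have h2 : ∀ i, (((a i : ℕ) : ℚ) - ((b i : ℕ) : ℚ)) • x i =
        ((a i : ℕ) : ℂ) * x i - ((b i : ℕ) : ℂ) * x i := by
      intro i
      rw [Rat.smul_def]
      push_cast
      ring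
    rw [Finset.sum_congr rfl fun i _ => h2 i, Finset.sum_sub_distrib, h, sub_self])
  funext i
  have h3 := h1 i
  have h4 : ((a i : ℕ) : ℚ) = ((b i : ℕ) : ℚ) := by linarith
  exact Fin.ext (by exact_mod_cast h4)

theorem box_card {r : ℕ} {x : Fin r → ℂ} (hli : LinearIndependent ℚ x) (n : ℕ) :
    (Box x n).card = n ^ r := by
  classical
  unfold Box
  rw [Finset.card_image_of_injective _ (box_inj hli n), Finset.card_univ, Fintype.card_fun,
    Fintype.card_fin, Fintype.card_fin]

theorem box_add {r : ℕ} {x : Fin r → ℂ} {n k : ℕ} (hn : 1 ≤ n) (hk : 1 ≤ k) :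
    (Box x n + Box x k).card ≤ (n + k - 1) ^ r := by
  classical
  have h1 : Box x n + Box x k ⊆ Box x (n + k - 1) := by
    intro s hs
    obtain ⟨a, ha, b, hb, rfl⟩ := Finset.mem_add.1 hs
    obtain ⟨i, -, rfl⟩ := Finset.mem_image.1 ha
    obtain ⟨j, -, rfl⟩ := Finset.mem_image.1 hb
    refine Finset.mem_image.2 ⟨fun t => ⟨(i t : ℕ) + (j t : ℕ), by
      have := (i t).2
      have := (j t).2
      omega⟩, Finset.mem_univ _, ?_⟩
    dsimp only
    rw [← Finset.sum_add_distrib]
    refine Finset.sum_congr rfl fun t _ => ?_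
    push_cast
    ring
  refine (Finset.card_le_card h1).trans ?_
  unfold Box
  refine Finset.card_image_le.trans ?_
  rw [Finset.card_univ, Fintype.card_fun, Fintype.card_fin, Fintype.card_fin]

theorem box_rank {v : ℂ} (hv : v ≠ 0) {r : ℕ} {x : Fin r → ℂ} (hx : ∀ i, IsAlgebraic ℚ (x i))
    (hli : LinearIndependent ℚ x) {n : ℕ} (hn : 1 ≤ n) :
    finrank QB (ExpSums v (Box x n) ⊓ LogForms : Submodule QB ℂ) ≤
      (Nat.sqrt n + 3) ^ r + Nat.sqrt n ^ r := by
  set q := Nat.sqrt n with hq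
  have hq1 : 1 ≤ q := Nat.sqrt_pos.2 hn
  have hq2 : n < (q + 1) * (q + 1) := Nat.lt_succ_sqrt n
  have h := main hv (box_alg hx n) (box_alg hx q)
  rw [box_card hli] at h
  have h2 := box_add (x := x) hn hq1
  set m := finrank QB (ExpSums v (Box x n) ⊓ LogForms : Submodule QB ℂ) with hm
  have h3 : n + q - 1 ≤ q * (q + 3) := by
    have h6 : (q + 1) * (q + 1) = q * q + 2 * q + 1 := by ring
    have h7 : q * (q + 3) = q * q + 3 * q := by ring
    omega
  have h4 : (n + q - 1) ^ r ≤ q ^ r * (q + 3) ^ r := by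
    rw [← mul_pow]
    exact Nat.pow_le_pow_left h3 r
  have h5 : q ^ r * (q ^ r - 1) ≤ q ^ r * q ^ r := Nat.mul_le_mul_left _ (Nat.sub_le _ _)
  have h6 : 0 < q ^ r := pow_pos hq1 r
  refine Nat.le_of_mul_le_mul_left ?_ h6
  calc q ^ r * m ≤ (Box x n + Box x q).card + q ^ r * (q ^ r - 1) := h
    _ ≤ q ^ r * (q + 3) ^ r + q ^ r * q ^ r := Nat.add_le_add (h2.trans h4) h5
    _ = q ^ r * ((q + 3) ^ r + q ^ r) := by ring

theorem indep_of {z : ℂ} (hz : z ∉ LogForms) : Independent z := by
  intro m l halg hli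
  rw [Fintype.linearIndependent_iff]
  intro g hg
  rw [Fin.sum_univ_succ, Fin.sum_univ_succ] at hg
  simp only [Fin.cons_zero, Fin.cons_succ] at hg
  have hga : ∀ i, IsAlgebraic ℚ (g i : ℂ) := fun i => mem_QB.1 (g i).2
  have e0 : g 0 • (1 : ℂ) = (g 0 : ℂ) := by
    rw [Algebra.smul_def, mul_one]
    rfl
  have e1 : g (Fin.succ 0) • z = (g (Fin.succ 0) : ℂ) * z := by
    rw [Algebra.smul_def]
    rfl
  have e2 : ∀ i : Fin m, g i.succ.succ • l i = (g i.succ.succ : ℂ) * l i := by
    intro i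
    rw [Algebra.smul_def]
    rfl
  rw [e0, e1, Finset.sum_congr rfl fun i _ => e2 i] at hg
  have h1 : (g (Fin.succ 0) : ℂ) = 0 := by
    by_contra hne
    apply hz
    have e3 : z = (g (Fin.succ 0) : ℂ)⁻¹ *
        (-((g 0 : ℂ) + ∑ i : Fin m, (g i.succ.succ : ℂ) * l i)) := by
      field_simp
      linear_combination hg
    rw [e3]
    exact Lt_mul (hga _).inv (neg_mem (add_mem (Lt_alg (hga _))
      (sum_mem fun i _ => Lt_mul (hga _) (Lt_log (halg i)))))
  rw [h1, zero_mul, zero_add] at hg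
  have h2 := Pool.Agent.H297R2.baker_inhom l halg hli (g 0 : ℂ) (hga 0)
    (fun i => (g i.succ.succ : ℂ)) (fun i => hga _) hg
  intro i
  refine Fin.cases (Subtype.ext h2.1) (fun i => Fin.cases (Subtype.ext h1) (fun i => ?_) i) i
  exact Subtype.ext (h2.2 i)

open Classical in
/-- **Linear independence of `1`, monomials in exponentials, and logarithms.** -/
theorem result (r n : ℕ) (x : Fin r → ℂ) (v : ℂ) (hn : 1 ≤ n) (hx : ∀ i, IsAlgebraic ℚ (x i))
    (hli : LinearIndependent ℚ x) (hv : v ≠ 0) :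
    -- (1)
    (Finset.univ.filter fun k : Fin r → Fin n =>
      ¬ Independent (v * Complex.exp (∑ i, ((k i : ℕ) : ℂ) * x i))).card ≤
        (Nat.sqrt n + 3) ^ r + Nat.sqrt n ^ r ∧
    -- (2)
    Module.finrank (algebraicClosure ℚ ℂ) (ExpSums v (Box x n)) = n ^ r ∧
    Module.finrank (algebraicClosure ℚ ℂ)
      (ExpSums v (Box x n) ⊓ LogForms : Submodule (algebraicClosure ℚ ℂ) ℂ) ≤
        (Nat.sqrt n + 3) ^ r + Nat.sqrt n ^ r := by
  refine ⟨?_, by rw [expSums_rank hv (box_alg hx n), box_card hli], box_rank hv hx hli hn⟩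
  refine le_trans ?_ ((number hv (box_alg hx n)).trans (box_rank hv hx hli hn))
  refine Finset.card_le_card_of_injOn (fun k : Fin r → Fin n => ∑ i, ((k i : ℕ) : ℂ) * x i)
    (fun k hk => ?_) (fun a _ b _ h => box_inj hli n h)
  rw [Finset.mem_coe, Finset.mem_filter] at hk ⊢
  exact ⟨Finset.mem_image.2 ⟨k, Finset.mem_univ _, rfl⟩, by_contra fun h => hk.2 (indep_of h)⟩

end Pool.Agent.Results.MP_58e087_nt.MonomialsInExponentials
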