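import Pool.Agent.U175.Rel.Scales

/-!
# The near relations between `1, e, π` at all scales

Let `t` be a real number, for instance `t = π`, and `n ≥ 0`. For integer vectors
`v = (v_0, …, v_{n+1})` put `L(v) = v_0 + v_1 e + ⋯ + v_n e^n + v_{n+1} t`. Let `θ > 0`, `M > 1` and
`(n + 1) (M + 1) θ < 1`; for `n = 1`, the relations between `1, e, t`, this is `2 (M + 1) θ < 1`. A
vector `v ≠ 0` is a near relation at the scale `X` if its entries are at most `X^θ` and
`|L(v)| ≤ 1 / X`. It is shown that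

* at every large scale any two near relations are proportional;
* if there is a relation `L(v) = 0` then at every large scale the near relations are those
  proportional to `v` (of height at most `X^θ`);
* if there is no relation, every large scale `X` at which there is a near relation `v` is followed by
  a scale `Z ≥ X` such that all near relations at the scales between `X` and `Z` are proportional to
  `v` and there are no near relations at the scales between `Z` and `Z^M`; and there are arbitrarily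
  large `Z` such that there are no near relations at the scales between `Z` and `Z^M`.

So `1, e, π` are linearly independent over `ℚ` if and only if at arbitrarily large scales there are
no near relations, and then there are arbitrarily long intervals of scales (`M` arbitrarily large,
`θ` small) without near relations.

Proof. Eliminate `t` from two near relations which are not proportional and use the measure of
transcendence of `e` with the optimal exponent (starting library, `Pool.Agent.W472.AC.e_measP`); the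
combinatorial part is the engine `Pool.Agent.N743.engine` of the starting library.
-/

set_option autoImplicit false

namespace Pool.Agent.Results.MP_58e087_nt.RelationsAtAllScales

/-- the linear form `v_0 + v_1 e + ⋯ + v_n e^n + v_{n+1} t` -/
noncomputable def form (n : ℕ) (t : ℝ) (v : Fin (n + 2) → ℤ) : ℝ :=
  (∑ i : Fin (n + 1), (v i.castSucc : ℝ) * Real.exp 1 ^ (i : ℕ)) + v (Fin.last (n + 1)) * t

/-- `v` and `w` are proportional -/
def Proportional {k : ℕ} (v w : Fin k → ℤ) : Prop := ∃ a b : ℤ, a ≠ 0 ∧ b ≠ 0 ∧ a • v = b • w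

/-- `v` is a relation between `1, e, …, e^n, t` of height at most `X^θ` up to an error at most
`1 / X` -/
def NearRel (n : ℕ) (t θ X : ℝ) (v : Fin (n + 2) → ℤ) : Prop :=
  v ≠ 0 ∧ (∀ i, |(v i : ℝ)| ≤ X ^ θ) ∧ |form n t v| ≤ X⁻¹

/-- The law of the near relations between `1, e, …, e^n, t`. -/
structure Law (n : ℕ) (t θ M : ℝ) : Prop where
  /-- at every large scale any two near relations are proportional -/
  one_line : ∃ K : ℝ, ∀ X ≥ K, ∀ v w, NearRel n t θ X v → NearRel n t θ X w → Proportional v w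
  /-- if there is a relation, at every large scale it is near and every near relation is
  proportional to it -/
  exact_case : ∀ v, v ≠ 0 → form n t v = 0 →
    ∃ K : ℝ, ∀ X ≥ K, NearRel n t θ X v ∧ ∀ w, NearRel n t θ X w → Proportional v w
  /-- if there is no relation, after every large scale with a near relation `v` there is an
  interval of scales with near relations proportional to `v` only, followed by an interval
  `(Z, Z^M]` of scales without near relations -/
  gaps : (∀ v, v ≠ 0 → form n t v ≠ 0) → ∃ K : ℝ, ∀ X ≥ K, ∀ v, NearRel n t θ X v → ∃ Z ≥ X,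
    (∀ Y, X ≤ Y → Y ≤ Z → ∀ w, NearRel n t θ Y w → Proportional v w) ∧
      ∀ Y, Z < Y → Y ≤ Z ^ M → ∀ w, ¬ NearRel n t θ Y w
  /-- if there is no relation, there are arbitrarily large intervals `(Z, Z^M]` of scales without
  near relations -/
  voids : (∀ v, v ≠ 0 → form n t v ≠ 0) →
    ∀ K : ℝ, ∃ Z ≥ K, ∀ Y, Z < Y → Y ≤ Z ^ M → ∀ w, ¬ NearRel n t θ Y w
  /-- there is a relation if and only if there are near relations at all large scales -/
  equiv : (∃ v, v ≠ 0 ∧ form n t v = 0) ↔ ∃ K : ℝ, ∀ X ≥ K, ∃ v, NearRel n t θ X v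

open Pool.Agent.U175.Rel in
theorem law (n : ℕ) (t θ M : ℝ) (hθ : 0 < θ) (hM : 1 < M) (h : (n + 1) * (M + 1) * θ < 1) :
    Law n t θ M := by
  have hD := dich n t θ M hθ hM h
  have mk_eq : ∀ v w : Vec n, Quotient.mk (setoid n) v = Quotient.mk (setoid n) w ↔
      Proportional v.1 w.1 := fun v w => ⟨fun h => Quotient.exact h, fun h => Quotient.sound h⟩
  constructor
  · obtain ⟨K, hK⟩ := hD.excl
    refine ⟨K, fun X hX v w hv hw => ?_⟩
    exact (mk_eq ⟨v, hv.1⟩ ⟨w, hw.1⟩).1
      (hK X hX _ _ ⟨⟨v, hv.1⟩, rfl, hv⟩ ⟨⟨w, hw.1⟩, rfl, hw⟩)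
  · intro v hv h0
    obtain ⟨K, hK⟩ := hD.good_case (Quotient.mk (setoid n) ⟨v, hv⟩) ⟨⟨v, hv⟩, rfl, h0⟩
    obtain ⟨K', hK'1, hK'⟩ := Pool.Agent.N743.large_scale θ (ht v) hθ
    refine ⟨max K K', fun X hX => ⟨⟨hv, fun i => (le_ht v i).trans
      (hK' X ((le_max_right _ _).trans hX)).le, ?_⟩, fun w hw => ?_⟩⟩
    · have h1 : form n t v = 0 := h0
      rw [h1, abs_zero, inv_nonneg]
      have : K' ≤ X := (le_max_right _ _).trans hX
      linarith
    · by_contra hcon
      obtain ⟨-, h2⟩ := hK X ((le_max_left _ _).trans hX)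
      refine (h2 (Quotient.mk (setoid n) ⟨w, hw.1⟩) (fun h => hcon ?_)).1 ⟨⟨w, hw.1⟩, rfl, hw⟩
      exact (mk_eq _ _).1 h.symm
  · intro h0
    have hg : ∀ q : Line n, ¬ ∃ v : Vec n, Quotient.mk (setoid n) v = q ∧
        Pool.Agent.U175.Rel.form n t v.1 = 0 := by
      rintro q ⟨v, -, hv⟩
      exact h0 v.1 v.2 hv
    obtain ⟨K, hK⟩ := hD.void_case hg
    refine ⟨K, fun X hX v hv => ?_⟩
    obtain ⟨Z, hZ, h1, h2⟩ := hK X hX _ ⟨⟨v, hv.1⟩, rfl, hv⟩
    refine ⟨Z, hZ, fun Y hY1 hY2 w hw => ?_, fun Y hY1 hY2 w hw => ?_⟩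
    · exact (mk_eq ⟨v, hv.1⟩ ⟨w, hw.1⟩).1 (h1 Y hY1 hY2 _ ⟨⟨w, hw.1⟩, rfl, hw⟩).symm
    · exact h2 Y hY1 hY2 (Quotient.mk (setoid n) ⟨w, hw.1⟩) ⟨⟨w, hw.1⟩, rfl, hw⟩
  · intro h0 K
    have hg : ∀ q : Line n, ¬ ∃ v : Vec n, Quotient.mk (setoid n) v = q ∧
        Pool.Agent.U175.Rel.form n t v.1 = 0 := by
      rintro q ⟨v, -, hv⟩
      exact h0 v.1 v.2 hv
    obtain ⟨Z, hZ, h1⟩ := hD.voids hg K
    exact ⟨Z, hZ, fun Y hY1 hY2 w hw =>
      h1 Y hY1 hY2 (Quotient.mk (setoid n) ⟨w, hw.1⟩) ⟨⟨w, hw.1⟩, rfl, hw⟩⟩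
  · have h1 : (∃ q : Line n, ∃ v : Vec n, Quotient.mk (setoid n) v = q ∧
        Pool.Agent.U175.Rel.form n t v.1 = 0) ↔ ∃ v, v ≠ 0 ∧ form n t v = 0 := by
      constructor
      · rintro ⟨q, v, -, hv⟩
        exact ⟨v.1, v.2, hv⟩
      · rintro ⟨v, hv, h0⟩
        exact ⟨_, ⟨v, hv⟩, rfl, h0⟩
    rw [← h1, hD.equiv]
    constructor
    · rintro ⟨K, hK⟩
      refine ⟨K, fun X hX => ?_⟩
      obtain ⟨q, v, -, hv⟩ := hK X hX
      exact ⟨v.1, hv⟩
    · rintro ⟨K, hK⟩
      refine ⟨K, fun X hX => ?_⟩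
      obtain ⟨v, hv⟩ := hK X hX
      exact ⟨_, ⟨v, hv.1⟩, rfl, hv⟩

lemma form_one (t : ℝ) (v : Fin 3 → ℤ) : form 1 t v = v 0 + v 1 * Real.exp 1 + v 2 * t := by
  unfold form
  rw [Fin.sum_univ_two]
  simp

theorem indep_iff (t : ℝ) : LinearIndependent ℚ ![(1 : ℝ), Real.exp 1, t] ↔
    ∀ v : Fin 3 → ℤ, v ≠ 0 → form 1 t v ≠ 0 := by
  rw [← LinearIndependent.iff_fractionRing ℤ ℚ, Fintype.linearIndependent_iff]
  have key : ∀ v : Fin 3 → ℤ, ∑ i, v i • (![(1 : ℝ), Real.exp 1, t] : Fin 3 → ℝ) i =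
      form 1 t v := by
    intro v
    rw [form_one, Fin.sum_univ_three]
    simp
  constructor
  · intro h v hv h0
    apply hv
    funext i
    exact h v (by rw [key, h0]) i
  · intro h v h0 i
    by_contra hcon
    rw [key] at h0
    exact h v (fun h1 => hcon (congrFun h1 i)) h0

/-- **The near relations between `1, e, π` at all scales.**

(1) For every `n`, every real number `t` and all `θ > 0`, `M > 1` with `(n + 1) (M + 1) θ < 1` the law
`Law` of the near relations between `1, e, …, e^n, t` holds.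

(2) If `2 (M + 1) θ < 1`, then `1, e, π` are linearly independent over `ℚ` if and only if there
are arbitrarily large scales without near relations `a + b e + c π` (`|a|, |b|, |c| ≤ X^θ`, not all
`0`, and `|a + b e + c π| ≤ 1 / X`), and if and only if there are arbitrarily large intervals
`(Z, Z^M]` of such scales. -/
theorem result :
    (∀ (n : ℕ) (t θ M : ℝ), 0 < θ → 1 < M → (n + 1) * (M + 1) * θ < 1 → Law n t θ M) ∧
    ∀ θ M : ℝ, 0 < θ → 1 < M → 2 * (M + 1) * θ < 1 → List.TFAE [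
      LinearIndependent ℚ ![(1 : ℝ), Real.exp 1, Real.pi],
      ∀ K : ℝ, ∃ X ≥ K, ∀ a b c : ℤ, (a ≠ 0 ∨ b ≠ 0 ∨ c ≠ 0) → |(a : ℝ)| ≤ X ^ θ →
        |(b : ℝ)| ≤ X ^ θ → |(c : ℝ)| ≤ X ^ θ → 1 / X < |a + b * Real.exp 1 + c * Real.pi|,
      ∀ K : ℝ, ∃ Z ≥ K, ∀ X, Z < X → X ≤ Z ^ M → ∀ a b c : ℤ, (a ≠ 0 ∨ b ≠ 0 ∨ c ≠ 0) →
        |(a : ℝ)| ≤ X ^ θ → |(b : ℝ)| ≤ X ^ θ → |(c : ℝ)| ≤ X ^ θ →
        1 / X < |a + b * Real.exp 1 + c * Real.pi|] := by
  refine ⟨fun n t θ M hθ hM h => law n t θ M hθ hM h, fun θ M hθ hM h => ?_⟩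
  have hL := law 1 Real.pi θ M hθ hM (by push_cast; linarith)
  have key : ∀ X : ℝ, (∀ w, ¬ NearRel 1 Real.pi θ X w) ↔ ∀ a b c : ℤ, (a ≠ 0 ∨ b ≠ 0 ∨ c ≠ 0) →
      |(a : ℝ)| ≤ X ^ θ → |(b : ℝ)| ≤ X ^ θ → |(c : ℝ)| ≤ X ^ θ →
      1 / X < |a + b * Real.exp 1 + c * Real.pi| := by
    intro X
    constructor
    · intro h1 a b c h0 ha hb hc
      by_contra hcon
      push Not at hcon
      refine h1 ![a, b, c] ⟨?_, ?_, ?_⟩
      · intro hz
        have e0 := congrFun hz 0
        have e1 := congrFun hz 1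
        have e2 := congrFun hz 2
        simp at e0 e1 e2
        rcases h0 with h0 | h0 | h0
        · exact h0 e0
        · exact h0 e1
        · exact h0 e2
      · intro i
        fin_cases i
        · exact ha
        · exact hb
        · exact hc
      · rw [form_one, ← one_div]
        exact hcon
    · rintro h1 w ⟨hw0, hwB, hwf⟩
      have h2 : w 0 ≠ 0 ∨ w 1 ≠ 0 ∨ w 2 ≠ 0 := by
        by_contra hcon
        push Not at hcon
        apply hw0
        funext i
        fin_cases i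
        · exact hcon.1
        · exact hcon.2.1
        · exact hcon.2.2
      have h3 := h1 (w 0) (w 1) (w 2) h2 (hwB 0) (hwB 1) (hwB 2)
      rw [form_one, ← one_div] at hwf
      linarith
  simp only [← key]
  rw [indep_iff]
  tfae_have 1 → 3 := fun h1 => hL.voids h1
  tfae_have 3 → 2 := by
    intro h1 K
    obtain ⟨Z, hZ, h2⟩ := h1 (max K 2)
    have hZ2 : 2 ≤ Z := (le_max_right _ _).trans hZ
    have hZM : Z < Z ^ M := by
      conv_lhs => rw [← Real.rpow_one Z]
      exact Real.rpow_lt_rpow_of_exponent_lt (by linarith) hM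
    exact ⟨Z ^ M, ((le_max_left _ _).trans hZ).trans hZM.le, h2 _ hZM le_rfl⟩
  tfae_have 2 → 1 := by
    intro h1 v hv h0
    obtain ⟨K, hK⟩ := hL.equiv.1 ⟨v, hv, h0⟩
    obtain ⟨X, hX, h2⟩ := h1 K
    obtain ⟨w, hw⟩ := hK X hX
    exact h2 w hw
  tfae_finish

end Pool.Agent.Results.MP_58e087_nt.RelationsAtAllScales
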